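import Mathlib

/-!
# Circulant matrices over finite chain rings: the unit invariance fails whenever `p ∣ n`

For every finite field `F` of characteristic `p`, every `n ≥ 1` divisible by `p` and every `e ≥ 2`
the chain ring `R = F[X]/(X ^ e)` (residue field `F`, nilpotency index `e`) has a unit `b`, namely
`1 + X`, which is not the determinant of any `n × n` circulant matrix over `R`, while `1` is.
-/

set_option autoImplicit false

namespace Pool.Agent.Results.MP_ad0c0d_al.PrimeDividesSize

/-- A commutative finite chain ring: a finite commutative ring with `1 ≠ 0` whose ideals are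
totally ordered by inclusion. -/
structure IsFiniteChainRing (R : Type) [CommRing R] : Prop where
  finite : Finite R
  nontrivial : Nontrivial R
  total : ∀ I J : Ideal R, I ≤ J ∨ J ≤ I

/-- `γ` generates the maximal ideal of the chain ring `R`, that is, the multiples of `γ` are exactly
the nonunits. -/
def GeneratesMaximalIdeal {R : Type} [CommRing R] (γ : R) : Prop :=
  ∀ x : R, x ∈ Ideal.span {γ} ↔ ¬ IsUnit x

/-- The circulant matrix with first row `v 0, v 1, …, v (n - 1)`; each row is the cyclic shift one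
place to the right of the row above, so the entry `(i, j)` is `v ((j - i) mod n)`
(the subtraction of `Fin n` is modulo `n`). -/
def cir {n : ℕ} {R : Type} (v : Fin n → R) : Matrix (Fin n) (Fin n) R :=
  Matrix.of fun i j => v (j - i)

/-- The number of `n × n` circulant matrices over `R` with determinant `a`. -/
noncomputable def circCount (n : ℕ) (R : Type) [CommRing R] (a : R) : ℕ :=
  Nat.card {v : Fin n → R // (cir v).det = a}

open Polynomial Matrix

/-! ### Determinants of circulant matrices over the dual numbers -/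

lemma cir_eq_transpose {n : ℕ} {R : Type} (v : Fin n → R) :
    cir v = (Matrix.circulant v)ᵀ := rfl

lemma det_cir {n : ℕ} {R : Type} [CommRing R] (v : Fin n → R) :
    (cir v).det = (Matrix.circulant v).det := by
  rw [cir_eq_transpose, Matrix.det_transpose]

/-- Over a commutative ring of characteristic `p ∣ n` in which `ε ^ 2 = 0`, the determinant of a
circulant matrix `A + ε B` of size `n` with `A` invertible is `det A`. -/
lemma det_circulant_add {n p : ℕ} {F : Type} [Field F] [CharP F p] (hn : 0 < n) (hpn : p ∣ n)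
    {S : Type} [CommRing S] (φ : F →+* S) (ε : S) (hε : ε ^ 2 = 0) (a b : Fin n → F)
    (ha : (Matrix.circulant a).det ≠ 0) :
    (Matrix.circulant (fun i => φ (a i) + ε * φ (b i))).det = φ (Matrix.circulant a).det := by
  have : NeZero n := ⟨hn.ne'⟩
  set A := Matrix.circulant a with hA
  set B := Matrix.circulant b with hB
  have hdet : IsUnit A.det := isUnit_iff_ne_zero.2 ha
  -- the adjugate of a circulant matrix has trace zero against circulants
  have key : ∀ M : Matrix (Fin n) (Fin n) F, (∀ i j k, M (i + k) (j + k) = M i j) →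
      M.trace = 0 := by
    intro M hM
    have h1 : ∀ i, M i i = M 0 0 := by
      intro i
      have := hM 0 0 i
      simpa using this
    rw [Matrix.trace]
    simp only [Matrix.diag_apply, h1]
    rw [Finset.sum_const, Finset.card_univ, Fintype.card_fin, nsmul_eq_mul]
    have : (n : F) = 0 := (CharP.cast_eq_zero_iff F p n).2 hpn
    rw [this, zero_mul]
  -- shift invariance of the inverse
  have hshift : ∀ k : Fin n, A.submatrix (fun i => i + k) (fun i => i + k) = A := by
    intro k
    ext i j
    simp [hA, Matrix.circulant_apply]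
  have hshiftB : ∀ k : Fin n, B.submatrix (fun i => i + k) (fun i => i + k) = B := by
    intro k
    ext i j
    simp [hB, Matrix.circulant_apply]
  have hshiftInv : ∀ k : Fin n, (A⁻¹).submatrix (fun i => i + k) (fun i => i + k) = A⁻¹ := by
    intro k
    have h1 : (A⁻¹).submatrix (Equiv.addRight k) (Equiv.addRight k) =
        (A.submatrix (Equiv.addRight k) (Equiv.addRight k))⁻¹ := by
      rw [Matrix.inv_submatrix_equiv]
    have h2 := hshift k
    calc (A⁻¹).submatrix (fun i => i + k) (fun i => i + k)
        = (A.submatrix (fun i => i + k) (fun i => i + k))⁻¹ := h1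
      _ = A⁻¹ := by rw [h2]
  have htr : (A⁻¹ * B).trace = 0 := by
    apply key
    intro i j k
    have h1 : (A⁻¹ * B).submatrix (Equiv.addRight k) (Equiv.addRight k) = A⁻¹ * B := by
      rw [← Matrix.submatrix_mul_equiv (A⁻¹) B (Equiv.addRight k) (Equiv.addRight k)
        (Equiv.addRight k)]
      have e1 := hshiftInv k
      have e2 := hshiftB k
      have e1' : (A⁻¹).submatrix (Equiv.addRight k) (Equiv.addRight k) = A⁻¹ := e1
      have e2' : B.submatrix (Equiv.addRight k) (Equiv.addRight k) = B := e2
      rw [e1', e2']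
    have := congrFun (congrFun h1 i) j
    simpa using this
  have hfac : Matrix.circulant (fun i => φ (a i) + ε * φ (b i)) =
      A.map φ * (1 + ε • (A⁻¹ * B).map φ) := by
    have h1 : A.map φ * (A⁻¹ * B).map φ = B.map φ := by
      rw [← Matrix.map_mul, ← mul_assoc, Matrix.mul_nonsing_inv A hdet, one_mul]
    rw [mul_add, mul_one, Matrix.mul_smul, h1]
    ext i j
    simp [hA, hB, Matrix.circulant_apply]
  rw [hfac, Matrix.det_mul, Matrix.det_one_add_smul, hε, mul_zero, add_zero]
  have h2 : ((A⁻¹ * B).map φ).trace = 0 := by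
    have : ((A⁻¹ * B).map φ).trace = φ ((A⁻¹ * B).trace) := by
      simp only [Matrix.trace, Matrix.diag_apply, Matrix.map_apply, map_sum]
    rw [this, htr, map_zero]
  rw [h2, zero_mul, add_zero, mul_one]
  exact (RingHom.map_det φ A).symm

/-! ### The chain ring `F[X]/(X ^ e)` -/

section Ring

variable (F : Type) [Field F]

/-- The ring `F[X]/(X ^ e)`. -/
abbrev Trunc (e : ℕ) : Type := F[X] ⧸ Ideal.span {(X : F[X]) ^ e}

variable {F}

lemma exists_form (e : ℕ) (x : Trunc F e) :
    ∃ (s : ℕ) (u : Trunc F e), s ≤ e ∧ IsUnit u ∧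
      x = Ideal.Quotient.mk (Ideal.span {(X : F[X]) ^ e}) X ^ s * u := by
  obtain ⟨f, rfl⟩ := Ideal.Quotient.mk_surjective x
  by_cases hf : f = 0
  · refine ⟨e, 1, le_rfl, isUnit_one, ?_⟩
    rw [hf, map_zero, ← map_pow, mul_one, eq_comm, Ideal.Quotient.eq_zero_iff_mem]
    exact Ideal.mem_span_singleton_self _
  · obtain ⟨g, hg, hndvd⟩ := exists_eq_pow_rootMultiplicity_mul_and_not_dvd f hf 0
    rw [C_0, sub_zero] at hg hndvd
    set s := rootMultiplicity 0 f
    have hcop : IsCoprime g (X ^ e) := by
      apply IsCoprime.pow_right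
      rw [isCoprime_comm]
      exact (Irreducible.coprime_iff_not_dvd irreducible_X).2 hndvd
    have hu : IsUnit (Ideal.Quotient.mk (Ideal.span {(X : F[X]) ^ e}) g) := by
      obtain ⟨a, b, hab⟩ := hcop
      rw [isUnit_iff_exists_inv']
      refine ⟨Ideal.Quotient.mk _ a, ?_⟩
      rw [← map_mul, ← map_one (Ideal.Quotient.mk (Ideal.span {(X : F[X]) ^ e})),
        Ideal.Quotient.eq, ← hab]
      rw [Ideal.mem_span_singleton]
      exact ⟨-b, by ring⟩
    by_cases hse : s ≤ e
    · refine ⟨s, _, hse, hu, ?_⟩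
      rw [← map_pow, ← map_mul, ← hg]
    · refine ⟨e, 1, le_rfl, isUnit_one, ?_⟩
      push Not at hse
      have h0 : Ideal.Quotient.mk (Ideal.span {(X : F[X]) ^ e}) f = 0 := by
        rw [Ideal.Quotient.eq_zero_iff_mem, Ideal.mem_span_singleton, hg]
        exact Dvd.dvd.mul_right (pow_dvd_pow X hse.le) g
      have h1 : Ideal.Quotient.mk (Ideal.span {(X : F[X]) ^ e}) X ^ e = 0 := by
        rw [← map_pow, Ideal.Quotient.eq_zero_iff_mem]
        exact Ideal.mem_span_singleton_self _
      rw [h0, h1, zero_mul]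

lemma dvd_total (e : ℕ) (x y : Trunc F e) : x ∣ y ∨ y ∣ x := by
  obtain ⟨s, u, -, hu, rfl⟩ := exists_form e x
  obtain ⟨t, v, -, hv, rfl⟩ := exists_form e y
  rcases le_total s t with h | h
  · left
    rw [hu.mul_right_dvd, hv.dvd_mul_right]
    exact pow_dvd_pow _ h
  · right
    rw [hv.mul_right_dvd, hu.dvd_mul_right]
    exact pow_dvd_pow _ h

lemma finite_trunc [Finite F] (e : ℕ) : Finite (Trunc F e) := by
  have : Module.Finite F (Trunc F e) := (monic_X_pow (R := F) e).finite_adjoinRoot
  exact Module.finite_of_finite F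

/-- Evaluation at `X = 0`. -/
noncomputable def ev (e : ℕ) (he : 2 ≤ e) : Trunc F e →+* F :=
  Ideal.Quotient.lift _ (evalRingHom (0 : F)) (by
    intro f hf
    rw [Ideal.mem_span_singleton] at hf
    obtain ⟨g, rfl⟩ := hf
    simp [show e ≠ 0 by omega])

/-- Reduction modulo `X ^ 2`. -/
noncomputable def red (e : ℕ) (he : 2 ≤ e) : Trunc F e →+* Trunc F 2 :=
  Ideal.Quotient.factor (Ideal.span_singleton_le_span_singleton.2 (pow_dvd_pow (X : F[X]) he))

lemma ev_mk (e : ℕ) (he : 2 ≤ e) (f : F[X]) :
    ev e he (Ideal.Quotient.mk _ f) = f.coeff 0 := by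
  rw [coeff_zero_eq_eval_zero]
  rfl

lemma red_mk (e : ℕ) (he : 2 ≤ e) (f : F[X]) :
    red e he (Ideal.Quotient.mk _ f) =
      Ideal.Quotient.mk _ (C (f.coeff 0)) +
        Ideal.Quotient.mk _ X * Ideal.Quotient.mk _ (C (f.coeff 1)) := by
  change Ideal.Quotient.mk _ f = _
  rw [← map_mul, ← map_add, Ideal.Quotient.eq, Ideal.mem_span_singleton, X_pow_dvd_iff]
  intro d hd
  interval_cases d
  · simp
  · simp [coeff_C]

/-- No circulant matrix of size `n`, `p ∣ n`, over `F[X]/(X ^ e)` has determinant `1 + X`. -/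
lemma det_ne {n p : ℕ} [CharP F p] (hn : 0 < n) (hpn : p ∣ n) (e : ℕ) (he : 2 ≤ e)
    (v : Fin n → Trunc F e) :
    (cir v).det ≠ 1 + Ideal.Quotient.mk _ X := by
  intro h
  choose f hf using fun i => Ideal.Quotient.mk_surjective (v i)
  set a : Fin n → F := fun i => (f i).coeff 0 with ha
  set b : Fin n → F := fun i => (f i).coeff 1 with hb
  rw [det_cir] at h
  have h1 : (Matrix.circulant a).det = 1 := by
    have := congrArg (ev e he) h
    rw [RingHom.map_det, map_add, map_one, ev_mk, coeff_X_zero, add_zero] at this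
    rw [← this]
    congr 1
    ext i j
    simp only [circulant_apply, RingHom.mapMatrix_apply, Matrix.map_apply, ha]
    rw [← hf, ev_mk]
  have h2 := congrArg (red e he) h
  set φ : F →+* Trunc F 2 := (Ideal.Quotient.mk _).comp C with hφ
  have h3 : (red e he).mapMatrix (Matrix.circulant v) =
      Matrix.circulant (fun i => φ (a i) + Ideal.Quotient.mk _ X * φ (b i)) := by
    ext i j
    simp only [circulant_apply, RingHom.mapMatrix_apply, Matrix.map_apply]
    rw [← hf, red_mk]
    rfl
  have hX : (Ideal.Quotient.mk (Ideal.span {(X : F[X]) ^ 2}) X) ^ 2 = 0 := by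
    rw [← map_pow, Ideal.Quotient.eq_zero_iff_mem]
    exact Ideal.mem_span_singleton_self _
  rw [RingHom.map_det, h3, det_circulant_add hn hpn φ _ hX a b (by rw [h1]; exact one_ne_zero),
    h1, map_one, map_add, map_one, red_mk] at h2
  have h4 : (Ideal.Quotient.mk (Ideal.span {(X : F[X]) ^ 2}) X) = 0 := by
    simpa using h2
  rw [Ideal.Quotient.eq_zero_iff_mem, Ideal.mem_span_singleton, X_pow_dvd_iff] at h4
  have := h4 1 (by norm_num)
  simp at this

lemma isUnit_iff (e : ℕ) (he : 2 ≤ e) (x : Trunc F e) : IsUnit x ↔ ev e he x ≠ 0 := by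
  constructor
  · intro h
    exact (h.map (ev e he)).ne_zero
  · intro h
    obtain ⟨s, u, -, hu, rfl⟩ := exists_form e x
    rcases Nat.eq_zero_or_pos s with hs | hs
    · subst hs
      simpa using hu
    · exfalso
      apply h
      rw [map_mul, map_pow, ev_mk, coeff_X_zero, zero_pow hs.ne', zero_mul]

end Ring

/-- **Main theorem.** Let `F` be a finite field of characteristic `p`, `n ≥ 1` divisible by `p` and
`e ≥ 2`. Then there are a commutative finite chain ring `R` with residue field `F` (the ring
homomorphism `π` onto `F`), a generator `γ` of its maximal ideal with nilpotency index `e`, and a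
unit `b` of `R` such that `c_n(R, b) = 0` and `c_n(R, 1) ≠ 0`. In particular
`c_n(R, b γ ^ s) ≠ c_n(R, γ ^ s)` for `s = 0`. -/
theorem result (p : ℕ) (F : Type) [Field F] [Finite F] [CharP F p] (n e : ℕ) (hn : 0 < n)
    (hpn : p ∣ n) (he : 2 ≤ e) :
    ∃ (R : Type) (_ : CommRing R) (π : R →+* F) (γ : R) (b : Rˣ),
      IsFiniteChainRing R ∧ Function.Surjective π ∧ GeneratesMaximalIdeal γ ∧
      IsLeast {k : ℕ | γ ^ k = 0} e ∧ circCount n R (b : R) = 0 ∧ circCount n R 1 ≠ 0 := by
  have hone : IsUnit (1 + Ideal.Quotient.mk (Ideal.span {(X : F[X]) ^ e}) X) := by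
    rw [isUnit_iff e he, map_add, map_one, ev_mk, coeff_X_zero, add_zero]
    exact one_ne_zero
  have hfin : Finite (Trunc F e) := finite_trunc e
  have : NeZero n := ⟨hn.ne'⟩
  refine ⟨Trunc F e, inferInstance, ev e he, Ideal.Quotient.mk _ X, hone.unit, ⟨hfin, ?_, ?_⟩,
    ?_, ?_, ⟨?_, ?_⟩, ?_, ?_⟩
  · exact (ev e he).domain_nontrivial
  · intro I J
    by_contra h
    push Not at h
    obtain ⟨h1, h2⟩ := h
    obtain ⟨x, hxI, hxJ⟩ := SetLike.not_le_iff_exists.1 h1
    obtain ⟨y, hyJ, hyI⟩ := SetLike.not_le_iff_exists.1 h2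
    rcases dvd_total e x y with h | h
    · exact hyI (I.mem_of_dvd h hxI)
    · exact hxJ (J.mem_of_dvd h hyJ)
  · intro c
    exact ⟨Ideal.Quotient.mk _ (C c), by rw [ev_mk, coeff_C_zero]⟩
  · intro x
    rw [isUnit_iff e he, not_not, Ideal.mem_span_singleton]
    constructor
    · rintro ⟨y, rfl⟩
      rw [map_mul, ev_mk, coeff_X_zero, zero_mul]
    · intro h
      obtain ⟨f, rfl⟩ := Ideal.Quotient.mk_surjective x
      rw [ev_mk] at h
      obtain ⟨g, rfl⟩ := X_dvd_iff.2 h
      exact ⟨Ideal.Quotient.mk _ g, by rw [map_mul]⟩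
  · change _ ^ e = _
    rw [← map_pow, Ideal.Quotient.eq_zero_iff_mem]
    exact Ideal.mem_span_singleton_self _
  · intro k hk
    change _ ^ k = _ at hk
    rw [← map_pow, Ideal.Quotient.eq_zero_iff_mem, Ideal.mem_span_singleton] at hk
    by_contra hlt
    push Not at hlt
    have := X_pow_dvd_iff.1 hk k hlt
    simp at this
  · rw [circCount]
    have : IsEmpty {v : Fin n → Trunc F e // (cir v).det = (hone.unit : Trunc F e)} :=
      ⟨fun v => det_ne hn hpn e he v.1 (v.2.trans hone.unit_spec)⟩
    exact Nat.card_of_isEmpty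
  · rw [circCount]
    have h1 : Nonempty {v : Fin n → Trunc F e // (cir v).det = 1} := by
      refine ⟨Pi.single 0 1, ?_⟩
      rw [det_cir, circulant_single_one, det_one]
    have h2 : Finite {v : Fin n → Trunc F e // (cir v).det = 1} := inferInstance
    exact Nat.card_pos.ne'

end Pool.Agent.Results.MP_ad0c0d_al.PrimeDividesSize
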